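import Mathlib
import Pool.Agent.H19.CE

set_option autoImplicit false

namespace Pool.Agent.Results.MP_6d0c2f_al.SuperDec

open Pool.Agent.H19 Pool.Agent.H19.CE in
/-- A super-decomposable abelian group whose endomorphism ring is non-commutative and centrally
essential. -/
theorem result : ∃ (A : Type) (_ : AddCommGroup A),
    (∀ B : AddSubgroup A, (∃ C : AddSubgroup A, IsCompl B C) → B ≠ ⊥ →
      ∃ B₁ B₂ : AddSubgroup B, IsCompl B₁ B₂ ∧ B₁ ≠ ⊥ ∧ B₂ ≠ ⊥) ∧
    (∃ a b : AddMonoid.End A, a * b ≠ b * a) ∧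
    ∀ a : AddMonoid.End A, a ≠ 0 → ∃ x ∈ Subring.center (AddMonoid.End A),
      ∃ y ∈ Subring.center (AddMonoid.End A), x ≠ 0 ∧ y ≠ 0 ∧ a * x = y := by
  obtain ⟨A, _, ⟨e⟩⟩ := Real.realize R2 (sep_pi _ fun _ => sep_B 2)
  refine ⟨A, inferInstance, ?_, ?_, (ce_R2.equiv e).out⟩
  · rintro B ⟨C, hC⟩ hB
    have hC' : IsCompl B.toIntSubmodule C.toIntSubmodule := AddSubgroup.toIntSubmodule.isCompl hC
    let p : AddMonoid.End A := (B.toIntSubmodule.projection C.toIntSubmodule hC').toAddMonoidHom
    have p1 : ∀ x, p x ∈ B := fun x => Submodule.projection_apply_mem hC' x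
    have p2 : ∀ x ∈ B, p x = x := fun x hx => Submodule.projection_apply_left hC' ⟨x, hx⟩
    obtain ⟨c, hc, h1, h2, h3⟩ := split_R2 (e.symm p) (by
      intro h
      rw [map_eq_zero_iff _ e.symm.injective] at h
      exact hB (eq_bot_iff.mpr fun x hx => by rw [← p2 x hx, h]; exact zero_mem _))
    have key : ∀ c ∈ Subring.center R2, e.symm p * c ≠ 0 →
        ((e (1 - c) : A →+ A).comp B.subtype).ker = ⊥ → c * c = c → False := by
      intro c hc h0 h hcc
      apply h0
      apply e.injective
      rw [map_mul, e.apply_symm_apply, map_zero]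
      refine AddMonoidHom.ext fun x => ?_
      have : (⟨p (e c x), p1 _⟩ : B) ∈ ((e (1 - c) : A →+ A).comp B.subtype).ker := by
        change (e (1 - c) * p * e c) x = 0
        rw [← Subring.mem_center_iff.mp (center_equiv e (sub_mem (one_mem _) hc)), mul_assoc,
          ← map_mul, sub_mul, hcc, one_mul, sub_self, map_zero, mul_zero]
        rfl
      rw [h] at this
      exact congrArg Subtype.val this
    refine ⟨((e (1 - c) : A →+ A).comp B.subtype).ker,
      ((e (1 - (1 - c)) : A →+ A).comp B.subtype).ker, ⟨?_, ?_⟩,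
      fun h => key c hc h2 h h1, fun h => key _ (sub_mem (one_mem _) hc) h3 h ?_⟩
    · rw [AddSubgroup.disjoint_def]
      intro x hx1 hx2
      have h4 : e (1 - c) x.1 + e (1 - (1 - c)) x.1 = 0 := by
        rw [show e (1 - c) x.1 = 0 from hx1, show e (1 - (1 - c)) x.1 = 0 from hx2, add_zero]
      change (e (1 - c) + e (1 - (1 - c))) x.1 = 0 at h4
      rw [← map_add, add_sub_cancel, map_one] at h4
      exact Subtype.ext h4
    · rw [codisjoint_iff, eq_top_iff]
      intro x _
      have h4 : ∀ c ∈ Subring.center R2, e c x.1 ∈ B := fun c hc => by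
        rw [← p2 _ x.2]
        change (e c * p) x.1 ∈ B
        rw [← Subring.mem_center_iff.mp (center_equiv e hc)]
        exact p1 _
      refine AddSubgroup.mem_sup.mpr ⟨⟨_, h4 c hc⟩, ?_, ⟨_, h4 _ (sub_mem (one_mem _) hc)⟩, ?_, ?_⟩
      · change (e (1 - c) * e c) x.1 = 0
        rw [← map_mul, sub_mul, h1, one_mul, sub_self, map_zero]
        rfl
      · change (e (1 - (1 - c)) * e (1 - c)) x.1 = 0
        rw [← map_mul, sub_sub_cancel, mul_sub, h1, mul_one, sub_self, map_zero]
        rfl
      · apply Subtype.ext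
        change (e c + e (1 - c)) x.1 = x.1
        rw [← map_add, add_sub_cancel, map_one]
        rfl
    · simp [mul_sub, sub_mul, h1]
  · obtain ⟨a, b, h⟩ := noncomm_R2
    exact ⟨e a, e b, fun h' => h (e.injective (by simpa using h'))⟩

end Pool.Agent.Results.MP_6d0c2f_al.SuperDec
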